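import Pool.Agent.Lib_helper91.RdvMain
import Pool.Agent.Lib_helper76.TF.Main

set_option autoImplicit false

/-!
# A linear bound for the triple rendezvous time from one word with few tree-free cycles

Let `u` be a word of length `l` of a synchronizing automaton with `n ≥ 3` states and let `f` be its
map, with `c` periodic states.  A cycle of `f` is tree-free if `f` maps no state outside the cycle
into it.  Let `W` be such that `a + b ≤ W + 1 + gcd a b` for any two lengths `a`, `b` of tree-free
cycles (equal ones included), and let `s` be the least of the numbers: the number of states in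
tree-free cycles; `m * (m + 1) / 2`, where `m` is the number of tree-free cycles; `2 * c + 1 - n`
(zero if negative).  Then three distinct states are mapped to one by some word of length at most
`(1 + s) * ((l + 1 / 2) * n + 1 + l * W) - l * s * c`.
-/

namespace Pool.Agent.Results.MP_735804_co.FewTreeFreeCycles

open Finset Function Pool.Agent.Lib_helper91.Rdv Pool.Agent.Lib_helper76.TF

/-- The map of a word. -/
def word {n a : ℕ} (δ : Fin a → Fin n → Fin n) (w : List (Fin a)) : Fin n → Fin n :=
  (w.map δ).foldr (· ∘ ·) id

open Classical in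
/-- The periodic states of `f`, i.e. the states in its cycles. -/
noncomputable def per {n : ℕ} (f : Fin n → Fin n) : Finset (Fin n) :=
  univ.filter fun x => ∃ i, 1 ≤ i ∧ f^[i] x = x

open Classical in
/-- The states in tree-free cycles of `f`: the periodic states `x` such that every state mapped to
`x` by some iterate of `f` is periodic. -/
noncomputable def treeFree {n : ℕ} (f : Fin n → Fin n) : Finset (Fin n) :=
  (per f).filter fun x => ∀ y i, f^[i] y = x → y ∈ per f

open Classical in
/-- The forward orbit of a state `x`; for periodic `x` this is its cycle. -/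
noncomputable def cyc {n : ℕ} (f : Fin n → Fin n) (x : Fin n) : Finset (Fin n) :=
  univ.filter fun y => ∃ i, f^[i] x = y

open Classical in
/-- The tree-free cycles of `f`. -/
noncomputable def treeFreeCycles {n : ℕ} (f : Fin n → Fin n) : Finset (Finset (Fin n)) :=
  (treeFree f).image (cyc f)

/-- The least of: the number of states in tree-free cycles of `f`; `m * (m + 1) / 2`, where `m` is
the number of tree-free cycles; `2 * c + 1 - n`, where `c` is the number of periodic states. -/
noncomputable def excess {n : ℕ} (f : Fin n → Fin n) : ℕ :=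
  min (min (treeFree f).card ((treeFreeCycles f).card * ((treeFreeCycles f).card + 1) / 2))
    (2 * (per f).card + 1 - n)

theorem result : ∀ n a : ℕ, 3 ≤ n → ∀ δ : Fin a → Fin n → Fin n,
    (∃ w : List (Fin a), ∃ q : Fin n, ∀ x : Fin n, word δ w x = q) →
    ∀ u : List (Fin a), ∀ W : ℕ,
    (∀ C ∈ treeFreeCycles (word δ u), ∀ D ∈ treeFreeCycles (word δ u),
      C.card + D.card ≤ W + 1 + Nat.gcd C.card D.card) →
    ∃ w : List (Fin a),
      2 * w.length + 2 * u.length * excess (word δ u) * (per (word δ u)).card ≤
        (1 + excess (word δ u)) * ((2 * u.length + 1) * n + 2 + 2 * u.length * W) ∧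
      ∃ x y z : Fin n, x ≠ y ∧ x ≠ z ∧ y ≠ z ∧ word δ w x = word δ w y ∧
        word δ w x = word δ w z := by
  rintro n a hn δ ⟨r, q, hr⟩ u W hC
  have hword : ∀ w : List (Fin a), word δ w = run δ w.reverse := fun w =>
    funext fun x => foldr_comp_eq δ w x
  have hcard : Fintype.card (Fin n) = n := Fintype.card_fin n
  have hr' : ∀ x, run δ r.reverse x = q := by
    intro x
    rw [← hword, hr]
  rw [hword u] at hC ⊢
  have hul : u.reverse.length = u.length := List.length_reverse
  set f := run δ u.reverse with hf
  have hper : per f = PP f := by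
    ext x
    rw [mem_PP]
    simp only [per, mem_filter, mem_univ, true_and]
    constructor
    · rintro ⟨i, h1, h2⟩
      exact mk_mem_periodicPts h1 h2
    · rintro ⟨i, h1, h2⟩
      exact ⟨i, h1, h2⟩
  have htf : treeFree f = TFs f := by
    ext x
    rw [mem_TFs]
    simp only [treeFree, mem_filter, hper, mem_PP, TFp]
  have hcyc : cyc f = orb f := by
    funext x
    ext y
    rw [mem_orb]
    simp [cyc]
  have hmemC : ∀ x, TFp f x → orb f x ∈ treeFreeCycles f := by
    intro x hx
    unfold treeFreeCycles
    rw [htf, hcyc]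
    exact mem_image_of_mem _ (mem_TFs.mpr hx)
  have hTF : ∀ x y, TFp f x → TFp f y → minimalPeriod f x + minimalPeriod f y ≤
      W + 1 + Nat.gcd (minimalPeriod f x) (minimalPeriod f y) := by
    intro x y hx hy
    rw [← card_orb hx.1, ← card_orb hy.1]
    exact hC _ (hmemC x hx) _ (hmemC y hy)
  obtain ⟨s, hsdef⟩ : ∃ s, s = excess f := ⟨_, rfl⟩
  have hs : (treeFree f).card ≤ s ∨
      (treeFreeCycles f).card * ((treeFreeCycles f).card + 1) / 2 ≤ s ∨
      2 * (per f).card + 1 ≤ n + s := by
    unfold excess at hsdef
    omega
  rw [← hsdef]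
  obtain ⟨N, x, y, ⟨w, hw, hwl⟩, hmin, -⟩ :=
    exists_geodesic (exists_tri hr' (by rw [hcard]; exact hn))
  have hm := main_bound hr' (by rw [hcard]; exact hn) hmin u.reverse (p := W) (s := s) hTF (by
    rw [hcard, ← hf, ← hper, ← htf, ← hcyc]
    rcases hs with h | h | h
    · exact Or.inl h
    · refine Or.inr (Or.inl ?_)
      rw [Nat.choose_two_right, Nat.add_sub_cancel, Nat.mul_comm]
      exact h
    · exact Or.inr (Or.inr (by omega)))
  rw [hcard, hul, ← hf, ← hper] at hm
  obtain ⟨x, y, z, hxy, hxz, hyz, e1, e2⟩ := hw
  refine ⟨w.reverse, ?_, x, y, z, hxy, hxz, hyz, ?_, ?_⟩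
  · rw [List.length_reverse, hwl]
    have hcn : (per f).card ≤ n := by
      have := Finset.card_le_univ (per f)
      rwa [hcard] at this
    obtain ⟨d, hd⟩ := Nat.exists_eq_add_of_le hcn
    set c := (per f).card
    set l := u.length
    have e3 : n - c = d := by omega
    rw [e3] at hm
    have h2 : 2 * (n / 2) ≤ n := Nat.mul_div_le n 2
    have h3 : (s + 1) * (2 * (n / 2)) ≤ (s + 1) * n := Nat.mul_le_mul_left _ h2
    calc 2 * N + 2 * l * s * c
        ≤ 2 * (l * c + (s + 1) * (n / 2 + 1 + l * (d + W))) + 2 * l * s * c := by omega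
      _ = 2 * l * (1 + s) * c + (s + 1) * (2 * (n / 2)) +
          (s + 1) * (2 + 2 * l * (d + W)) := by ring
      _ ≤ 2 * l * (1 + s) * c + (s + 1) * n + (s + 1) * (2 + 2 * l * (d + W)) := by omega
      _ = (1 + s) * (2 * l * (c + d) + n + 2 + 2 * l * W) := by ring
      _ = (1 + s) * ((2 * l + 1) * n + 2 + 2 * l * W) := by rw [← hd]; ring
  · rw [hword, List.reverse_reverse]
    exact e1
  · rw [hword, List.reverse_reverse]
    exact e2

end Pool.Agent.Results.MP_735804_co.FewTreeFreeCycles
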