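import Pool.Agent.Lib_helper91.RdvClass

set_option autoImplicit false

/-!
# Linear bounds for the triple rendezvous time of classes of automata

For a strongly connected synchronizing automaton with `n ≥ 3` states in which every letter misses
at most `d` states and at most `k` orbits of the permutation letters, with at most `b` states in
total, contain no state with two preimages under a letter, some word with at most
`n + 1 + d * (n + k * b) / 2` letters maps three distinct states to one.
-/

namespace Pool.Agent.Results.MP_735804_co.LinearClasses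

open Pool.Agent.Lib_helper91.Rdv

/-- `T` meets all the orbits of the permutation letters inside `B`; outside `B` every state is
reached from a state with two preimages under a letter by a word of permutation letters. -/
theorem result : ∀ n m d k b : ℕ, 3 ≤ n → ∀ δ : Fin m → Fin n → Fin n,
    (∃ w : List (Fin m), ∃ q : Fin n, ∀ p : Fin n,
        ((w.map δ).foldr (· ∘ ·) (id : Fin n → Fin n)) p = q) →
    (∀ x y : Fin n, ∃ w : List (Fin m),
        ((w.map δ).foldr (· ∘ ·) (id : Fin n → Fin n)) x = y) →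
    (∀ a : Fin m, (Finset.univ.filter fun y : Fin n => ∀ x, δ a x ≠ y).card ≤ d) →
    (∃ T B : Finset (Fin n), T.card ≤ k ∧ B.card ≤ b ∧
      (∀ x ∈ B, ∃ t ∈ T, ∃ w : List (Fin m), (∀ a ∈ w, Function.Bijective (δ a)) ∧
        ((w.map δ).foldr (· ∘ ·) (id : Fin n → Fin n)) t = x) ∧
      (∀ x, x ∉ B → ∃ t : Fin n, (∃ (a : Fin m) (p p' : Fin n), p ≠ p' ∧ δ a p = t ∧ δ a p' = t) ∧
        ∃ w : List (Fin m), (∀ a ∈ w, Function.Bijective (δ a)) ∧
        ((w.map δ).foldr (· ∘ ·) (id : Fin n → Fin n)) t = x)) →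
    ∃ w : List (Fin m), 2 * w.length ≤ 2 * n + 2 + d * (n + k * b) ∧
      ∃ u v s : Fin n, u ≠ v ∧ u ≠ s ∧ v ≠ s ∧
        ((w.map δ).foldr (· ∘ ·) (id : Fin n → Fin n)) u =
          ((w.map δ).foldr (· ∘ ·) (id : Fin n → Fin n)) v ∧
        ((w.map δ).foldr (· ∘ ·) (id : Fin n → Fin n)) u =
          ((w.map δ).foldr (· ∘ ·) (id : Fin n → Fin n)) s := by
  rintro n m d k b hn δ ⟨r, q, hr⟩ hconn hd ⟨T, B, hT, hB, h1, h2⟩
  have hr' : ∀ p, run δ r.reverse p = q := by
    intro p
    rw [← hr p, foldr_comp_eq]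
  have hconn' : ∀ x y, ∃ w, run δ w x = y := by
    intro x y
    obtain ⟨w, hw⟩ := hconn x y
    exact ⟨w.reverse, by rw [← hw, foldr_comp_eq]⟩
  have hd' : ∀ a, (miss δ [a]).card ≤ d := by
    intro a
    refine le_trans (Finset.card_le_card ?_) (hd a)
    intro y hy
    rw [mem_miss] at hy
    rw [Finset.mem_filter]
    exact ⟨Finset.mem_univ _, hy⟩
  obtain ⟨w, ⟨u, v, s, huv, hus, hvs, e1, e2⟩, hwl⟩ := class_bound hconn' hr'
    (by rw [Fintype.card_fin]; exact hn) hd' T B hT hB (by
      intro x hx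
      obtain ⟨t, ht, w, hw, hwx⟩ := h1 x hx
      exact ⟨t, ht, w.reverse, fun a ha => hw a (List.mem_reverse.mp ha),
        by rw [← hwx, foldr_comp_eq]⟩) (by
      intro x hx
      obtain ⟨t, ht, w, hw, hwx⟩ := h2 x hx
      exact ⟨t, ht, w.reverse, fun a ha => hw a (List.mem_reverse.mp ha),
        by rw [← hwx, foldr_comp_eq]⟩)
  rw [Fintype.card_fin] at hwl
  refine ⟨w.reverse, ?_, u, v, s, huv, hus, hvs, ?_, ?_⟩
  · rw [List.length_reverse]
    exact hwl
  · rw [foldr_comp_eq, foldr_comp_eq, List.reverse_reverse]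
    exact e1
  · rw [foldr_comp_eq, foldr_comp_eq, List.reverse_reverse]
    exact e2

end Pool.Agent.Results.MP_735804_co.LinearClasses
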