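import Pool.Agent.Lib_helper91.RdvFin

set_option autoImplicit false

/-!
# A lower bound `⌊4n/3⌋` for the triple rendezvous time

For every `n ≥ 3` there is a synchronizing automaton with `n` states and two letters in which
no word with fewer than `⌊4n/3⌋` letters maps three distinct states to one common state.
-/

namespace Pool.Agent.Results.MP_735804_co.LowerBound

open Pool.Agent.Lib_helper91.Rdv

theorem result : ∀ n : ℕ, 3 ≤ n → ∃ δ : Fin 2 → Fin n → Fin n,
    (∃ w : List (Fin 2), ∃ q : Fin n, ∀ p : Fin n,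
        ((w.map δ).foldr (· ∘ ·) (id : Fin n → Fin n)) p = q) ∧
    ∀ w : List (Fin 2),
      (∃ a b d : Fin n, a ≠ b ∧ a ≠ d ∧ b ≠ d ∧
        ((w.map δ).foldr (· ∘ ·) (id : Fin n → Fin n)) a =
          ((w.map δ).foldr (· ∘ ·) (id : Fin n → Fin n)) b ∧
        ((w.map δ).foldr (· ∘ ·) (id : Fin n → Fin n)) a =
          ((w.map δ).foldr (· ∘ ·) (id : Fin n → Fin n)) d) →
      4 * n / 3 ≤ w.length := by
  intro n hn
  obtain ⟨δ, ⟨w, q, hw⟩, h⟩ := exists_auto n hn
  refine ⟨δ, ⟨w.reverse, q, fun p => ?_⟩, ?_⟩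
  · rw [foldr_comp_eq, List.reverse_reverse]
    exact hw p
  · rintro w ⟨a, b, d, hab, had, hbd, h1, h2⟩
    rw [foldr_comp_eq, foldr_comp_eq] at h1 h2
    have := h w.reverse a b d hab had hbd h1 h2
    rwa [List.length_reverse] at this

end Pool.Agent.Results.MP_735804_co.LowerBound
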