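import Pool.Agent.Lib_helper91.RdvMain

set_option autoImplicit false

/-!
# An upper bound for the triple rendezvous time

Every synchronizing automaton with `n ≥ 3` states, over any finite alphabet, has a word with at
most `(√5 - 1) / 8 * n ^ 2 + (3 + √5) / 4 * n + 1` letters that maps some three distinct states to
one common state.
-/

namespace Pool.Agent.Results.MP_735804_co.UpperBound

open Pool.Agent.Lib_helper91.Rdv

theorem result : ∀ n m : ℕ, 3 ≤ n → ∀ δ : Fin m → Fin n → Fin n,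
    (∃ w : List (Fin m), ∃ q : Fin n, ∀ p : Fin n,
        ((w.map δ).foldr (· ∘ ·) (id : Fin n → Fin n)) p = q) →
    ∃ w : List (Fin m),
      (w.length : ℝ) ≤ (√5 - 1) / 8 * (n : ℝ) ^ 2 + (3 + √5) / 4 * (n : ℝ) + 1 ∧
      ∃ a b d : Fin n, a ≠ b ∧ a ≠ d ∧ b ≠ d ∧
        ((w.map δ).foldr (· ∘ ·) (id : Fin n → Fin n)) a =
          ((w.map δ).foldr (· ∘ ·) (id : Fin n → Fin n)) b ∧
        ((w.map δ).foldr (· ∘ ·) (id : Fin n → Fin n)) a =
          ((w.map δ).foldr (· ∘ ·) (id : Fin n → Fin n)) d := by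
  rintro n m hn δ ⟨r, q, hr⟩
  have hr' : ∀ p, run δ r.reverse p = q := by
    intro p
    rw [← hr p, foldr_comp_eq]
  obtain ⟨w, ⟨a, b, d, hab, had, hbd, h1, h2⟩, hwl⟩ :=
    upper_all (δ := δ) hr' (by rw [Fintype.card_fin]; exact hn)
  rw [Fintype.card_fin] at hwl
  refine ⟨w.reverse, ?_, a, b, d, hab, had, hbd, ?_, ?_⟩
  · rw [List.length_reverse]
    exact hwl
  · rw [foldr_comp_eq, foldr_comp_eq, List.reverse_reverse]
    exact h1
  · rw [foldr_comp_eq, foldr_comp_eq, List.reverse_reverse]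
    exact h2

end Pool.Agent.Results.MP_735804_co.UpperBound
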